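import Pool.Agent.Helper98.Sim.Defs

set_option autoImplicit false

open scoped Classical BigOperators
open Finset

namespace Pool.Agent.Helper36.Sim

open Pool.Agent.Helper98.Sim

noncomputable section

/-- zero iff the sign of `m` fits to the number of elements below `m` -/
def dd (S : Finset ℕ) (ε : ℕ → Prop) (m : ℕ) : ZMod 2 :=
  if (ε m ↔ Even (S.filter (fun j => j < m)).card) then 0 else 1

/-- alternating, starting with plus -/
def Fp (S : Finset ℕ) (ε : ℕ → Prop) : ZMod 2 := ∏ m ∈ S, (dd S ε m + 1)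

/-- alternating, starting with minus -/
def Fm (S : Finset ℕ) (ε : ℕ → Prop) : ZMod 2 := ∏ m ∈ S, dd S ε m

theorem z2 (a : ZMod 2) : a + a = 0 := CharTwo.add_self_eq_zero a

theorem dd_neg (S : Finset ℕ) (ε ε' : ℕ → Prop) (m : ℕ) (h : ε' m ↔ ¬ ε m) :
    dd S ε' m = dd S ε m + 1 := by
  unfold dd
  by_cases h1 : ε m <;> by_cases h2 : Even (S.filter (fun j => j < m)).card <;>
    simp [h, h1, h2] <;> decide

theorem dd_congr (S : Finset ℕ) (ε ε' : ℕ → Prop) (m : ℕ) (h : ε' m ↔ ε m) :
    dd S ε' m = dd S ε m := by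
  unfold dd
  rw [h]

theorem Fp_congr {S : Finset ℕ} {ε ε' : ℕ → Prop} (h : ∀ m ∈ S, (ε' m ↔ ε m)) :
    Fp S ε' = Fp S ε :=
  Finset.prod_congr rfl (fun m hm => by rw [dd_congr S ε ε' m (h m hm)])

theorem Fp_neg {S : Finset ℕ} {ε ε' : ℕ → Prop} (h : ∀ m ∈ S, (ε' m ↔ ¬ ε m)) :
    Fp S ε' = Fm S ε :=
  Finset.prod_congr rfl (fun m hm => by
    rw [dd_neg S ε ε' m (h m hm), add_assoc, z2, add_zero])

theorem dd_erase_lt (S : Finset ℕ) (ε : ℕ → Prop) {m j : ℕ} (hj : j < m) :
    dd (S.erase m) ε j = dd S ε j := by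
  have h : (S.erase m).filter (fun i => i < j) = S.filter (fun i => i < j) := by
    ext i
    simp only [Finset.mem_filter, Finset.mem_erase]
    constructor
    · rintro ⟨⟨_, h1⟩, h2⟩; exact ⟨h1, h2⟩
    · rintro ⟨h1, h2⟩; exact ⟨⟨by omega, h1⟩, h2⟩
  unfold dd
  rw [h]

theorem dd_erase_gt (S : Finset ℕ) (ε : ℕ → Prop) {m j : ℕ} (hm : m ∈ S) (hj : m < j) :
    dd (S.erase m) ε j = dd S ε j + 1 := by
  have h : (S.erase m).filter (fun i => i < j) = (S.filter (fun i => i < j)).erase m := by
    ext i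
    simp only [Finset.mem_filter, Finset.mem_erase]
    tauto
  have hc : (S.filter (fun i => i < j)).card = ((S.erase m).filter (fun i => i < j)).card + 1 := by
    rw [h, Finset.card_erase_add_one]
    exact Finset.mem_filter.2 ⟨hm, hj⟩
  unfold dd
  rw [hc]
  by_cases h1 : ε j <;> by_cases h2 : Even ((S.erase m).filter (fun i => i < j)).card <;>
    simp [h1, h2, Nat.even_add_one] <;> decide

theorem Fp_erase (S : Finset ℕ) (ε : ℕ → Prop) {m : ℕ} (hm : m ∈ S) :
    Fp (S.erase m) ε = (∏ j ∈ S.filter (fun j => j < m), (dd S ε j + 1)) *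
      ∏ j ∈ S.filter (fun j => m < j), dd S ε j := by
  have h : S.erase m = (S.filter (fun j => j < m)) ∪ (S.filter (fun j => m < j)) := by
    ext i
    simp only [Finset.mem_filter, Finset.mem_erase, Finset.mem_union]
    constructor
    · rintro ⟨h1, h2⟩
      rcases lt_or_gt_of_ne h1 with h | h
      · exact Or.inl ⟨h2, h⟩
      · exact Or.inr ⟨h2, h⟩
    · rintro (⟨h1, h2⟩ | ⟨h1, h2⟩)
      · exact ⟨by omega, h1⟩
      · exact ⟨by omega, h1⟩
  have hd : Disjoint (S.filter (fun j => j < m)) (S.filter (fun j => m < j)) := by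
    rw [Finset.disjoint_left]
    intro i hi hi'
    have h1 := (Finset.mem_filter.1 hi).2
    have h2 := (Finset.mem_filter.1 hi').2
    omega
  have h0 : Fp (S.erase m) ε = ∏ j ∈ (S.filter (fun j => j < m)) ∪ (S.filter (fun j => m < j)),
      (dd (S.erase m) ε j + 1) := by
    rw [← h]
    rfl
  rw [h0, Finset.prod_union hd]
  refine congrArg₂ (· * ·) (Finset.prod_congr rfl fun j hj => ?_)
    (Finset.prod_congr rfl fun j hj => ?_)
  · rw [dd_erase_lt S ε (Finset.mem_filter.1 hj).2]
  · rw [dd_erase_gt S ε hm (Finset.mem_filter.1 hj).2, add_assoc, z2, add_zero]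

theorem sum_erase (S : Finset ℕ) (ε : ℕ → Prop) :
    ∑ m ∈ S, Fp (S.erase m) ε = Fp S ε + Fm S ε := by
  have h := Finset.prod_add_ordered S (dd S ε) (fun _ => (1 : ZMod 2))
  have h1 : ∑ m ∈ S, Fp (S.erase m) ε = ∑ i ∈ S, ((1 : ZMod 2) *
      ∏ j ∈ S with j < i, (dd S ε j + 1)) * ∏ j ∈ S with i < j, dd S ε j := by
    refine Finset.sum_congr rfl fun m hm => ?_
    rw [Fp_erase S ε hm, one_mul]
  rw [h1]
  have h2 : Fp S ε = Fm S ε + ∑ i ∈ S, ((1 : ZMod 2) *
      ∏ j ∈ S with j < i, (dd S ε j + 1)) * ∏ j ∈ S with i < j, dd S ε j := h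
  rw [h2, add_comm (Fm S ε), add_assoc, z2, add_zero]

/-- absolute values of a word -/
def Sw {k : ℕ} (w : Fin k → ℤ) : Finset ℕ := univ.image (fun i => (w i).natAbs)

/-- positive labels of a word -/
def ew {k : ℕ} (w : Fin k → ℤ) (m : ℕ) : Prop := ∃ i, w i = m

def Ap {k : ℕ} (w : Fin k → ℤ) : ZMod 2 := if (Sw w).card = k then Fp (Sw w) (ew w) else 0

def Am {k : ℕ} (w : Fin k → ℤ) : ZMod 2 := if (Sw w).card = k then Fm (Sw w) (ew w) else 0

theorem mem_Sw {k : ℕ} (w : Fin k → ℤ) (m : ℕ) : m ∈ Sw w ↔ ∃ i, (w i).natAbs = m := by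
  simp [Sw]

theorem Ap_neg {k : ℕ} (w : Fin k → ℤ) (hw : ∀ i j, w i ≠ - w j) :
    Ap (fun i => - w i) = Am w := by
  have hS : Sw (fun i => - w i) = Sw w := by
    ext m
    rw [mem_Sw, mem_Sw]
    simp
  unfold Ap Am
  rw [hS]
  by_cases hc : (Sw w).card = k
  · rw [if_pos hc, if_pos hc]
    refine Fp_neg ?_
    intro m hm
    obtain ⟨i, hi⟩ := (mem_Sw w m).1 hm
    have hi2 : w i = m ∨ w i = -m := by
      have := Int.natAbs_eq (w i)
      rw [hi] at this
      exact this
    rcases hi2 with h | h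
    · constructor
      · rintro ⟨j, hj⟩
        exact absurd (h.trans hj.symm) (hw i j)
      · intro hn
        exact absurd ⟨i, h⟩ hn
    · constructor
      · rintro _ ⟨j, hj⟩
        have : w i = - w j := by rw [hj]; exact h
        exact hw i j this
      · intro _
        refine ⟨i, ?_⟩
        show - w i = m
        rw [h]; simp
  · rw [if_neg hc, if_neg hc]

theorem card_Sw_le {k : ℕ} (w : Fin k → ℤ) : (Sw w).card ≤ k := by
  have h := Finset.card_image_le (s := (univ : Finset (Fin k))) (f := fun i => (w i).natAbs)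
  rw [Finset.card_univ, Fintype.card_fin] at h
  exact h

theorem card_Sw_iff {k : ℕ} (w : Fin k → ℤ) :
    (Sw w).card = k ↔ Function.Injective (fun i => (w i).natAbs) := by
  have h := Finset.card_image_iff (s := (univ : Finset (Fin k))) (f := fun i => (w i).natAbs)
  rw [Finset.card_univ, Fintype.card_fin] at h
  have h2 : (Sw w).card = k ↔ Set.InjOn (fun i => (w i).natAbs) ((univ : Finset (Fin k)) : Set (Fin k)) := h
  rw [h2, Finset.coe_univ]
  exact Set.injOn_univ

theorem facet {k : ℕ} (w : Fin (k + 1) → ℤ) (hw : ∀ i j, w i ≠ - w j) :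
    ∑ i : Fin (k + 1), Ap (fun j => w (i.succAbove j)) = Ap w + Am w := by
  by_cases hinj : Function.Injective (fun i => (w i).natAbs)
  · -- distinct absolute values
    have hc : (Sw w).card = k + 1 := (card_Sw_iff w).2 hinj
    have hS : ∀ i : Fin (k + 1), Sw (fun j => w (i.succAbove j)) = (Sw w).erase (w i).natAbs := by
      intro i
      ext m
      rw [Finset.mem_erase, mem_Sw, mem_Sw]
      constructor
      · rintro ⟨j, hj⟩
        refine ⟨?_, ⟨_, hj⟩⟩
        intro hm
        rw [← hj] at hm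
        exact Fin.succAbove_ne i j (hinj hm)
      · rintro ⟨h1, ⟨j, hj⟩⟩
        have hji : j ≠ i := by
          rintro rfl
          exact h1 hj.symm
        obtain ⟨j', hj'⟩ := Fin.exists_succAbove_eq hji
        exact ⟨j', by rw [hj']; exact hj⟩
    have hterm : ∀ i : Fin (k + 1), Ap (fun j => w (i.succAbove j))
        = Fp ((Sw w).erase (w i).natAbs) (ew w) := by
      intro i
      have hci : (Sw (fun j => w (i.succAbove j))).card = k := by
        rw [hS i, Finset.card_erase_of_mem ((mem_Sw w _).2 ⟨i, rfl⟩), hc]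
        rfl
      unfold Ap
      rw [if_pos hci, hS i]
      refine Fp_congr ?_
      intro m hm
      constructor
      · rintro ⟨j, hj⟩
        exact ⟨_, hj⟩
      · rintro ⟨j, hj⟩
        have hji : j ≠ i := by
          rintro rfl
          rw [hj] at hm
          simp at hm
        obtain ⟨j', hj'⟩ := Fin.exists_succAbove_eq hji
        exact ⟨j', by show w (i.succAbove j') = m; rw [hj']; exact hj⟩
    rw [Finset.sum_congr rfl (fun i _ => hterm i)]
    have hsum : ∑ m ∈ Sw w, Fp ((Sw w).erase m) (ew w)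
        = ∑ i : Fin (k + 1), Fp ((Sw w).erase (w i).natAbs) (ew w) :=
      Finset.sum_image (s := (univ : Finset (Fin (k + 1)))) (g := fun i => (w i).natAbs)
        (f := fun m => Fp ((Sw w).erase m) (ew w)) (fun a _ b _ h => hinj h)
    rw [← hsum, sum_erase]
    unfold Ap Am
    rw [if_pos hc, if_pos hc]
  · have hc : ¬ (Sw w).card = k + 1 := fun h => hinj ((card_Sw_iff w).1 h)
    have h0 : Ap w + Am w = 0 := by
      unfold Ap Am
      rw [if_neg hc, if_neg hc, add_zero]
    rw [h0]
    have hex : ∃ a b, (w a).natAbs = (w b).natAbs ∧ a ≠ b := by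
      by_contra hcon
      push Not at hcon
      exact hinj (fun a b h => hcon a b h)
    obtain ⟨a, b, hab, hne⟩ := hex
    have hwab : w a = w b := by
      rcases Int.natAbs_eq_natAbs_iff.1 hab with h | h
      · exact h
      · exact absurd h (hw a b)
    -- other facets vanish
    have hoth : ∀ i : Fin (k + 1), i ≠ a → i ≠ b → Ap (fun j => w (i.succAbove j)) = 0 := by
      intro i hia hib
      unfold Ap
      rw [if_neg]
      intro hci
      have hinj' := (card_Sw_iff (fun j => w (i.succAbove j))).1 hci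
      obtain ⟨a', ha'⟩ := Fin.exists_succAbove_eq hia.symm
      obtain ⟨b', hb'⟩ := Fin.exists_succAbove_eq hib.symm
      have h1 : (fun j => (w (i.succAbove j)).natAbs) a' = (fun j => (w (i.succAbove j)).natAbs) b' := by
        show (w (i.succAbove a')).natAbs = (w (i.succAbove b')).natAbs
        rw [ha', hb']
        exact hab
      have h2 := hinj' h1
      rw [h2] at ha'
      exact hne (ha'.symm.trans hb')
    -- the two facets agree
    have hdel : ∀ x y : Fin (k + 1), x ≠ y → w x = w y →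
        Sw (fun j => w (x.succAbove j)) = Sw w ∧
        ∀ m, ew (fun j => w (x.succAbove j)) m ↔ ew w m := by
      intro x y hxy hwxy
      obtain ⟨y', hy'⟩ := Fin.exists_succAbove_eq hxy.symm
      constructor
      · ext m
        rw [mem_Sw, mem_Sw]
        constructor
        · rintro ⟨j, hj⟩; exact ⟨_, hj⟩
        · rintro ⟨j, hj⟩
          by_cases hjx : j = x
          · refine ⟨y', ?_⟩
            rw [hy', ← hwxy, ← hjx]
            exact hj
          · obtain ⟨j', hj'⟩ := Fin.exists_succAbove_eq hjx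
            exact ⟨j', by rw [hj']; exact hj⟩
      · intro m
        constructor
        · rintro ⟨j, hj⟩; exact ⟨_, hj⟩
        · rintro ⟨j, hj⟩
          by_cases hjx : j = x
          · refine ⟨y', ?_⟩
            show w (x.succAbove y') = m
            rw [hy', ← hwxy, ← hjx]
            exact hj
          · obtain ⟨j', hj'⟩ := Fin.exists_succAbove_eq hjx
            exact ⟨j', by show w (x.succAbove j') = m; rw [hj']; exact hj⟩
    have hsame : Ap (fun j => w (a.succAbove j)) = Ap (fun j => w (b.succAbove j)) := by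
      obtain ⟨h1, h2⟩ := hdel a b hne hwab
      obtain ⟨h3, h4⟩ := hdel b a hne.symm hwab.symm
      unfold Ap
      rw [h1, h3]
      by_cases hck : (Sw w).card = k
      · rw [if_pos hck, if_pos hck]
        exact Fp_congr (fun m _ => (h2 m).trans (h4 m).symm)
      · rw [if_neg hck, if_neg hck]
    rw [← Finset.add_sum_erase _ _ (Finset.mem_univ a),
      ← Finset.add_sum_erase _ _ (Finset.mem_erase.2 ⟨hne.symm, Finset.mem_univ b⟩),
      Finset.sum_eq_zero, add_zero, hsame, z2]
    intro i hi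
    rw [Finset.mem_erase, Finset.mem_erase] at hi
    exact hoth i hi.2.1 hi.1

variable {V : Type}

/-- the functional of a function of words -/
def fun1 (l : V → ℤ) {k : ℕ} (A : (Fin k → ℤ) → ZMod 2) : Ch V k →ₗ[ZMod 2] ZMod 2 :=
  Finsupp.linearCombination (ZMod 2) (fun σ => A (fun i => l (σ i)))

theorem fun1_single (l : V → ℤ) {k : ℕ} (A : (Fin k → ℤ) → ZMod 2) (σ : Fin k → V) (a : ZMod 2) :
    fun1 l A (Finsupp.single σ a) = a * A (fun i => l (σ i)) := by
  unfold fun1
  rw [Finsupp.linearCombination_single, smul_eq_mul]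

theorem fun1_apply (l : V → ℤ) {k : ℕ} (A : (Fin k → ℤ) → ZMod 2) (c : Ch V k) :
    fun1 l A c = ∑ σ ∈ c.support, c σ * A (fun i => l (σ i)) := by
  unfold fun1
  rw [Finsupp.linearCombination_apply]
  rfl

theorem fun1_bd (l : V → ℤ) {k : ℕ} (c : Ch V (k + 1))
    (hc : ∀ σ ∈ c.support, ∀ i j, l (σ i) ≠ - l (σ j)) :
    fun1 l Ap (bd c) = fun1 l Ap c + fun1 l Am c := by
  have h1 : bd c = ∑ σ ∈ c.support,
      c σ • ∑ i : Fin (k + 1), Finsupp.single (fun j => σ (i.succAbove j)) (1 : ZMod 2) := by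
    unfold bd
    rw [Finsupp.lsum_apply]
    rfl
  rw [h1, map_sum, fun1_apply, fun1_apply, ← Finset.sum_add_distrib]
  refine Finset.sum_congr rfl (fun σ hσ => ?_)
  rw [map_smul, map_sum, smul_eq_mul, ← mul_add]
  congr 1
  rw [← facet (fun i => l (σ i)) (hc σ hσ)]
  refine Finset.sum_congr rfl (fun i _ => ?_)
  rw [fun1_single, one_mul]

theorem fun1_act (l : V → ℤ) (T : V → V) {k : ℕ} (c : Ch V k)
    (hT : ∀ σ ∈ c.support, ∀ i, l (T (σ i)) = - l (σ i))
    (hc : ∀ σ ∈ c.support, ∀ i j, l (σ i) ≠ - l (σ j)) :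
    fun1 l Ap (act T c) = fun1 l Am c := by
  have h1 : act T c = ∑ σ ∈ c.support, Finsupp.single (T ∘ σ) (c σ) := by
    unfold act
    rw [Finsupp.lmapDomain_apply]
    rfl
  rw [h1, map_sum, fun1_apply]
  refine Finset.sum_congr rfl (fun σ hσ => ?_)
  rw [fun1_single]
  congr 1
  rw [← Ap_neg (fun i => l (σ i)) (hc σ hσ)]
  congr 1
  funext i
  exact hT σ hσ i

theorem st_A1a : Fan_stmt := by
  intro V T l N c h0 hbd hlab hcomp
  have hstep : ∀ k < N, fun1 l Ap (c (k + 1)) + fun1 l Am (c (k + 1))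
      = fun1 l Ap (c k) + fun1 l Am (c k) := by
    intro k hk
    rw [← fun1_bd l (c (k + 1)) (fun σ hσ => hcomp (k + 1) hk σ hσ), hbd k hk, map_add,
      fun1_act l T (c k) (fun σ hσ i => (hlab k hk.le σ hσ i).2.2)
        (fun σ hσ => hcomp k hk.le σ hσ)]
  have hall : ∀ k ≤ N, fun1 l Ap (c k) + fun1 l Am (c k)
      = fun1 l Ap (c 0) + fun1 l Am (c 0) := by
    intro k
    induction k with
    | zero => intro _; rfl
    | succ k ih =>
      intro hk
      rw [hstep k hk]
      exact ih (Nat.le_of_succ_le hk)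
  -- start
  have hstart : fun1 l Ap (c 0) + fun1 l Am (c 0) = 1 := by
    obtain ⟨v, hv⟩ := h0
    have hne : l v ≠ - l v := by
      have h := hcomp 0 (Nat.zero_le N) (fun _ => v) (by rw [hv]; simp) 0 0
      exact h
    rw [hv, fun1_single, fun1_single, one_mul, one_mul]
    have hS : Sw (fun _ : Fin (0 + 1) => l v) = {(l v).natAbs} := by
      ext m
      rw [mem_Sw, Finset.mem_singleton]
      constructor
      · rintro ⟨_, h⟩; exact h.symm
      · intro h; exact ⟨0, h.symm⟩
    unfold Ap Am Fp Fm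
    rw [hS, Finset.card_singleton, if_pos rfl, if_pos rfl, Finset.prod_singleton,
      Finset.prod_singleton]
    rw [add_comm (dd _ _ _) 1, add_assoc, z2, add_zero]
  -- end
  have hend : fun1 l Ap (c N) + fun1 l Am (c N) = 0 := by
    have hz : ∀ σ ∈ (c N).support, ¬ (Sw (fun i => l (σ i))).card = N + 1 := by
      intro σ hσ hcard
      have hsub : Sw (fun i => l (σ i)) ⊆ Finset.Icc 1 N := by
        intro m hm
        obtain ⟨i, hi⟩ := (mem_Sw _ m).1 hm
        obtain ⟨h1, h2, _⟩ := hlab N le_rfl σ hσ i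
        rw [Finset.mem_Icc]
        constructor
        · rw [← hi]
          exact Int.natAbs_pos.2 h1
        · rw [← hi]
          rw [Int.abs_eq_natAbs] at h2
          exact_mod_cast h2
      have := Finset.card_le_card hsub
      rw [hcard, Nat.card_Icc] at this
      omega
    rw [fun1_apply, fun1_apply, Finset.sum_eq_zero, Finset.sum_eq_zero, add_zero]
    · intro σ hσ
      unfold Am
      rw [if_neg (hz σ hσ), mul_zero]
    · intro σ hσ
      unfold Ap
      rw [if_neg (hz σ hσ), mul_zero]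
  have := hall N le_rfl
  rw [hstart, hend] at this
  exact absurd this (by decide)

end

end Pool.Agent.Helper36.Sim
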