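import Pool.Agent.Helper98.Sim.Defs

set_option autoImplicit false

open scoped Classical BigOperators
open Finset

namespace Pool.Agent.Helper36.Sim

open Pool.Agent.Helper98.Sim

noncomputable section

def pickI {N : ℕ} (P : Fin N → Prop) (h : ∃ i, P i) : Fin N := h.choose

theorem pickI_spec {N : ℕ} (P : Fin N → Prop) (h : ∃ i, P i) : P (pickI P h) := h.choose_spec

theorem pickI_congr {N : ℕ} (P P' : Fin N → Prop) (h : ∃ i, P i) (h' : ∃ i, P' i) (e : P = P') :
    pickI P h = pickI P' h' := by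
  subst e
  rfl

/-- label of a vector -/
def lab {N : ℕ} (δ : ℝ) (v : Fin N → ℝ) : ℤ :=
  if h : ∃ i, δ ≤ |v i| then
    (if 0 < v (pickI (fun i => δ ≤ |v i|) h) then
      (((pickI (fun i => δ ≤ |v i|) h : Fin N) : ℕ) : ℤ) + 1
      else - ((((pickI (fun i => δ ≤ |v i|) h : Fin N) : ℕ) : ℤ) + 1))
  else 0

theorem lab_spec {N : ℕ} (δ : ℝ) (_hδ : 0 < δ) (v : Fin N → ℝ) (h : ∃ i, δ ≤ |v i|) :
    ∃ i : Fin N, (δ ≤ v i ∧ lab δ v = (i : ℕ) + 1) ∨ (v i ≤ -δ ∧ lab δ v = -((i : ℕ) + 1)) := by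
  refine ⟨pickI (fun i => δ ≤ |v i|) h, ?_⟩
  have hs : δ ≤ |v (pickI (fun i => δ ≤ |v i|) h)| := pickI_spec (fun i => δ ≤ |v i|) h
  unfold lab
  rw [dif_pos h]
  by_cases hp : 0 < v (pickI (fun i => δ ≤ |v i|) h)
  · left
    rw [if_pos hp]
    rw [abs_of_pos hp] at hs
    exact ⟨hs, rfl⟩
  · right
    rw [if_neg hp]
    rw [abs_of_nonpos (not_lt.1 hp)] at hs
    exact ⟨by linarith, rfl⟩

theorem lab_neg {N : ℕ} (δ : ℝ) (hδ : 0 < δ) (v : Fin N → ℝ) (h : ∃ i, δ ≤ |v i|) :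
    lab δ (-v) = - lab δ v := by
  have h' : ∃ i, δ ≤ |(-v) i| := by
    obtain ⟨i, hi⟩ := h
    exact ⟨i, by rw [Pi.neg_apply, abs_neg]; exact hi⟩
  have e : (fun i => δ ≤ |(-v) i|) = fun i => δ ≤ |v i| := by
    funext i
    rw [Pi.neg_apply, abs_neg]
  have hk : pickI (fun i => δ ≤ |(-v) i|) h' = pickI (fun i => δ ≤ |v i|) h :=
    pickI_congr _ _ h' h e
  have hs : δ ≤ |v (pickI (fun i => δ ≤ |v i|) h)| := pickI_spec (fun i => δ ≤ |v i|) h
  unfold lab
  rw [dif_pos h, dif_pos h', hk, Pi.neg_apply]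
  by_cases hp : 0 < v (pickI (fun i => δ ≤ |v i|) h)
  · rw [if_pos hp, if_neg (by linarith)]
  · have hn : v (pickI (fun i => δ ≤ |v i|) h) < 0 := by
      rcases lt_trichotomy (v (pickI (fun i => δ ≤ |v i|) h)) 0 with h1 | h1 | h1
      · exact h1
      · rw [h1, abs_zero] at hs
        linarith
      · exact absurd h1 hp
    rw [if_neg hp, if_pos (by linarith), neg_neg]

theorem isCompact_K (N : ℕ) : IsCompact {x : Fin (N + 1) → ℝ | ∑ i, |x i| = 1} := by
  refine Metric.isCompact_of_isClosed_isBounded ?_ ?_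
  · exact isClosed_eq (continuous_finsetSum _ (fun i _ => (continuous_apply i).abs))
      continuous_const
  · refine (Metric.isBounded_closedBall (x := (0 : Fin (N + 1) → ℝ)) (r := 1)).subset ?_
    intro x hx
    rw [mem_closedBall_zero_iff, pi_norm_le_iff_of_nonneg zero_le_one]
    intro i
    rw [Real.norm_eq_abs]
    have hx' : ∑ i, |x i| = 1 := hx
    rw [← hx']
    exact Finset.single_le_sum (f := fun i => |x i|) (fun j _ => abs_nonneg _) (Finset.mem_univ i)

theorem st_A1c (hFan : Fan_stmt) (hSd : Sd_stmt) : BU_stmt := by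
  intro N g hg hodd
  by_contra hcon
  push Not at hcon
  set K : Set (Fin (N + 1) → ℝ) := {x | ∑ i, |x i| = 1} with hK
  have hKc : IsCompact K := isCompact_K N
  have hne : K.Nonempty := by
    refine ⟨Pi.single 0 1, ?_⟩
    show ∑ i, |(Pi.single 0 1 : Fin (N + 1) → ℝ) i| = 1
    rw [Finset.sum_eq_single 0]
    · simp
    · intro j _ hj
      rw [Pi.single_eq_of_ne hj, abs_zero]
    · intro h
      exact absurd (Finset.mem_univ _) h
  have hcont : ContinuousOn (fun x => ‖g x‖) K := (continuous_norm.comp hg).continuousOn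
  obtain ⟨x₀, hx₀, hmin⟩ := hKc.exists_isMinOn hne hcont
  set δ : ℝ := ‖g x₀‖ with hδdef
  have hδ : 0 < δ := norm_pos_iff.2 (hcon x₀ hx₀)
  have hge : ∀ x ∈ K, δ ≤ ‖g x‖ := fun x hx => hmin hx
  have hex : ∀ x ∈ K, ∃ i, δ ≤ |g x i| := by
    intro x hx
    by_contra hno
    push Not at hno
    have : ‖g x‖ < δ := by
      rw [pi_norm_lt_iff hδ]
      intro i
      rw [Real.norm_eq_abs]
      exact hno i
    exact absurd (hge x hx) (not_le.2 this)
  have huc : UniformContinuousOn g K := hKc.uniformContinuousOn_of_continuous hg.continuousOn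
  obtain ⟨η, hη, hclose⟩ := Metric.uniformContinuousOn_iff.1 huc (2 * δ) (by linarith)
  obtain ⟨c, hc0, hbd, hsup⟩ := hSd N η hη
  refine hFan (Fin (N + 1) → ℝ) (fun x => -x) (fun x => lab δ (g x)) N c hc0 hbd ?_ ?_
  · intro k hk σ hσ i
    have hmem : σ i ∈ K := (hsup k hk σ hσ).1 i
    have hx := hex (σ i) hmem
    obtain ⟨j, hj⟩ := lab_spec δ hδ (g (σ i)) hx
    have hjN : (j : ℕ) + 1 ≤ N := j.2
    have hjN' : ((j : ℕ) : ℤ) + 1 ≤ N := by exact_mod_cast hjN
    refine ⟨?_, ?_, ?_⟩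
    · rcases hj with ⟨_, h⟩ | ⟨_, h⟩
      · show lab δ (g (σ i)) ≠ 0
        rw [h]; omega
      · show lab δ (g (σ i)) ≠ 0
        rw [h]; omega
    · rcases hj with ⟨_, h⟩ | ⟨_, h⟩
      · show |lab δ (g (σ i))| ≤ N
        rw [h, abs_of_nonneg (by omega)]
        exact hjN'
      · show |lab δ (g (σ i))| ≤ N
        rw [h, abs_neg, abs_of_nonneg (by omega)]
        exact hjN'
    · show lab δ (g (-(σ i))) = - lab δ (g (σ i))
      rw [hodd, lab_neg δ hδ _ hx]
  · intro k hk σ hσ i j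
    have hmi : σ i ∈ K := (hsup k hk σ hσ).1 i
    have hmj : σ j ∈ K := (hsup k hk σ hσ).1 j
    have hd : dist (σ i) (σ j) < η := (hsup k hk σ hσ).2 i j
    have hd2 : dist (g (σ i)) (g (σ j)) < 2 * δ := hclose _ hmi _ hmj hd
    obtain ⟨a, ha⟩ := lab_spec δ hδ (g (σ i)) (hex _ hmi)
    obtain ⟨b, hb⟩ := lab_spec δ hδ (g (σ j)) (hex _ hmj)
    show lab δ (g (σ i)) ≠ - lab δ (g (σ j))
    intro heq
    rw [dist_pi_lt_iff (by linarith)] at hd2
    have hda := hd2 a
    rw [Real.dist_eq] at hda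
    rcases ha with ⟨ha1, ha2⟩ | ⟨ha1, ha2⟩ <;> rcases hb with ⟨hb1, hb2⟩ | ⟨hb1, hb2⟩
    · rw [ha2, hb2] at heq
      omega
    · rw [ha2, hb2] at heq
      have hab : a = b := by
        apply Fin.ext
        omega
      rw [← hab] at hb1
      have := (abs_lt.1 hda).2
      linarith
    · rw [ha2, hb2] at heq
      have hab : a = b := by
        apply Fin.ext
        omega
      rw [← hab] at hb1
      have := (abs_lt.1 hda).1
      linarith
    · rw [ha2, hb2] at heq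
      omega

end

end Pool.Agent.Helper36.Sim
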