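import Pool.Agent.Helper98.Sim.Defs
import Pool.Agent.Helper36.Sim.A1c

set_option autoImplicit false

open scoped Classical BigOperators Topology
open Finset Filter

namespace Pool.Agent.Helper36.Sim

open Pool.Agent.Helper98.Sim

noncomputable section

def clampR (s : ℝ) : ℝ := max (-1) (min 1 s)

theorem clampR_neg (s : ℝ) : clampR (-s) = - clampR s := by
  unfold clampR
  rcases le_total s (-1) with h | h
  · rw [min_eq_left (by linarith), max_eq_right (by linarith), min_eq_right (by linarith),
      max_eq_left h]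
    ring
  · rcases le_total s 1 with h' | h'
    · rw [min_eq_right (by linarith), max_eq_right (by linarith), min_eq_right h',
        max_eq_right h]
    · rw [min_eq_right (by linarith), max_eq_left (by linarith), min_eq_left h',
        max_eq_right (by linarith)]

theorem clampR_ge (s : ℝ) : -1 ≤ clampR s := le_max_left _ _

theorem clampR_one (s : ℝ) (h : 1 ≤ s) : clampR s = 1 := by
  unfold clampR
  rw [min_eq_left h, max_eq_right (by norm_num)]

theorem continuous_clampR : Continuous clampR :=
  continuous_const.max (continuous_const.min continuous_id)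

theorem pos_half {X : Type} (A : Finset X) (F : ℕ → X → ℝ) (f : X → ℝ) (w : ℕ → ℝ)
    (hlim : ∀ x, Tendsto (fun k => F k x) atTop (𝓝 (f x))) (hw : Tendsto w atTop atTop)
    (hz : ∀ k, ∑ x ∈ A, clampR (w k * F k x) = 0) :
    2 * (A.filter (fun x => 0 < f x)).card ≤ A.card := by
  have hev : ∀ x ∈ A.filter (fun x => 0 < f x), ∀ᶠ k in atTop, 1 ≤ w k * F k x := by
    intro x hx
    have hpos := (Finset.mem_filter.1 hx).2
    exact (hw.atTop_mul_pos hpos (hlim x)).eventually_ge_atTop 1
  have hall : ∀ᶠ k in atTop, ∀ x ∈ A.filter (fun x => 0 < f x), 1 ≤ w k * F k x :=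
    (Filter.eventually_all_finset _).2 hev
  obtain ⟨k, hk⟩ := hall.exists
  have hs := hz k
  rw [← Finset.sum_filter_add_sum_filter_not A (fun x => 0 < f x)] at hs
  have h1 : ∑ x ∈ A.filter (fun x => 0 < f x), clampR (w k * F k x)
      = ((A.filter (fun x => 0 < f x)).card : ℝ) := by
    rw [Finset.sum_congr rfl (fun x hx => clampR_one _ (hk x hx)), Finset.sum_const, nsmul_eq_mul,
      mul_one]
  have h2 : -((A.filter (fun x => ¬ 0 < f x)).card : ℝ)
      ≤ ∑ x ∈ A.filter (fun x => ¬ 0 < f x), clampR (w k * F k x) := by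
    have h3 : ∑ _x ∈ A.filter (fun x => ¬ 0 < f x), (-1 : ℝ)
        ≤ ∑ x ∈ A.filter (fun x => ¬ 0 < f x), clampR (w k * F k x) :=
      Finset.sum_le_sum (fun x _ => clampR_ge _)
    rw [Finset.sum_const, nsmul_eq_mul] at h3
    linarith
  have h4 : (A.filter (fun x => 0 < f x)).card + (A.filter (fun x => ¬ 0 < f x)).card = A.card :=
    Finset.card_filter_add_card_filter_not _
  have h5 : ((A.filter (fun x => 0 < f x)).card : ℝ) ≤ (A.filter (fun x => ¬ 0 < f x)).card := by
    linarith
  have h6 : (A.filter (fun x => 0 < f x)).card ≤ (A.filter (fun x => ¬ 0 < f x)).card := by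
    exact_mod_cast h5
  omega

theorem st_A2 (hBU : BU_stmt) : Ham_stmt := by
  intro X N φ A
  have hzero : ∀ m : ℕ, ∃ c : Fin (N + 1) → ℝ, ∑ i, |c i| = 1 ∧
      ∀ j, ∑ x ∈ A j, clampR (((m : ℝ) + 1) * ∑ i, c i * φ i x) = 0 := by
    intro m
    have hcont : Continuous (fun c : Fin (N + 1) → ℝ =>
        (fun j => ∑ x ∈ A j, clampR (((m : ℝ) + 1) * ∑ i, c i * φ i x) : Fin N → ℝ)) := by
      refine continuous_pi (fun j => continuous_finsetSum _ (fun x _ => ?_))
      refine continuous_clampR.comp (continuous_const.mul ?_)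
      exact continuous_finsetSum _ (fun i _ => (continuous_apply i).mul continuous_const)
    have hodd : ∀ c : Fin (N + 1) → ℝ,
        (fun j => ∑ x ∈ A j, clampR (((m : ℝ) + 1) * ∑ i, (-c) i * φ i x) : Fin N → ℝ)
        = -(fun j => ∑ x ∈ A j, clampR (((m : ℝ) + 1) * ∑ i, c i * φ i x) : Fin N → ℝ) := by
      intro c
      funext j
      show ∑ x ∈ A j, clampR (((m : ℝ) + 1) * ∑ i, (-c) i * φ i x)
        = -∑ x ∈ A j, clampR (((m : ℝ) + 1) * ∑ i, c i * φ i x)
      rw [← Finset.sum_neg_distrib]
      refine Finset.sum_congr rfl (fun x _ => ?_)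
      rw [← clampR_neg]
      congr 1
      rw [← mul_neg, ← Finset.sum_neg_distrib]
      congr 1
      refine Finset.sum_congr rfl (fun i _ => ?_)
      rw [Pi.neg_apply, neg_mul]
    obtain ⟨c, hc, hg⟩ := hBU N _ hcont hodd
    exact ⟨c, hc, fun j => congrFun hg j⟩
  choose u huK hu0 using hzero
  obtain ⟨a, haK, s, hs, hlim⟩ := (isCompact_K N).tendsto_subseq (x := u) (fun n => huK n)
  have hFlim : ∀ x, Tendsto (fun k => ∑ i, u (s k) i * φ i x) atTop (𝓝 (∑ i, a i * φ i x)) := by
    intro x
    have hcont : Continuous (fun c : Fin (N + 1) → ℝ => ∑ i, c i * φ i x) :=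
      continuous_finsetSum _ (fun i _ => (continuous_apply i).mul continuous_const)
    exact (hcont.tendsto a).comp hlim
  have hw : Tendsto (fun k => ((s k : ℕ) : ℝ) + 1) atTop atTop :=
    tendsto_atTop_add_const_right _ _ (tendsto_natCast_atTop_atTop.comp hs.tendsto_atTop)
  refine ⟨a, ?_, ?_⟩
  · rintro rfl
    have h : ∑ i : Fin (N + 1), |(0 : Fin (N + 1) → ℝ) i| = 1 := haK
    simp at h
  · intro j
    constructor
    · exact pos_half (A j) (fun k x => ∑ i, u (s k) i * φ i x) (fun x => ∑ i, a i * φ i x)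
        (fun k => ((s k : ℕ) : ℝ) + 1) hFlim hw (fun k => hu0 (s k) j)
    · have h := pos_half (A j) (fun k x => -∑ i, u (s k) i * φ i x) (fun x => -∑ i, a i * φ i x)
        (fun k => ((s k : ℕ) : ℝ) + 1) (fun x => (hFlim x).neg) hw ?_
      · have e : (A j).filter (fun x => 0 < -∑ i, a i * φ i x)
            = (A j).filter (fun x => ∑ i, a i * φ i x < 0) := by
          refine Finset.filter_congr (fun x _ => ?_)
          exact neg_pos
        rw [e] at h
        exact h
      · intro k
        have h0 := hu0 (s k) j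
        have h1 : ∑ x ∈ A j, clampR ((((s k : ℕ) : ℝ) + 1) * -∑ i, u (s k) i * φ i x)
            = -∑ x ∈ A j, clampR ((((s k : ℕ) : ℝ) + 1) * ∑ i, u (s k) i * φ i x) := by
          rw [← Finset.sum_neg_distrib]
          refine Finset.sum_congr rfl (fun x _ => ?_)
          rw [← clampR_neg, mul_neg]
        rw [h1, h0, neg_zero]

end

end Pool.Agent.Helper36.Sim
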