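import Pool.Agent.Helper98.Sim.Defs

set_option autoImplicit false

open scoped Classical BigOperators
open Finset

namespace Pool.Agent.Helper36.Sim

open Pool.Agent.Helper98.Sim

noncomputable section

theorem on_iff {d : ℕ} {b v x y z : Fin d → ℝ} (hx : On b v x) (hy : On b v y) (hxy : x ≠ y) :
    On b v z ↔ On x (y - x) z := by
  obtain ⟨s, hs⟩ := hx
  obtain ⟨t, ht⟩ := hy
  have hst : t - s ≠ 0 := by
    intro h
    refine hxy ?_
    rw [hs, ht, sub_eq_zero.1 h]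
  have hyx : y - x = (t - s) • v := by
    rw [hs, ht, sub_smul]
    abel
  constructor
  · rintro ⟨u, hu⟩
    refine ⟨(u - s) / (t - s), ?_⟩
    rw [hyx, smul_smul, div_mul_cancel₀ _ hst, hu, hs, sub_smul]
    abel
  · rintro ⟨u, hu⟩
    refine ⟨s + u * (t - s), ?_⟩
    rw [hu, hyx, hs, smul_smul, add_smul, add_assoc]

theorem cube_rpow (x : ℝ) (hx : 0 ≤ x) : (x ^ (2 / 3 : ℝ)) ^ 3 = x ^ 2 := by
  rw [← Real.rpow_natCast (x ^ (2 / 3 : ℝ)) 3, ← Real.rpow_mul hx, ← Real.rpow_natCast x 2]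
  norm_num

theorem st_B4 (hST : ST_stmt 3) : RichLines_stmt := by
  obtain ⟨C0, hC0, hST⟩ := hST
  refine ⟨27 * C0 ^ 3 + 3 * C0, by positivity, ?_⟩
  intro P k hk
  set Λ := (Lines P).filter (fun A => k ≤ A.card) with hΛ
  have hΛmem : ∀ A ∈ Λ, A ⊆ P ∧ 2 ≤ A.card ∧ k ≤ A.card ∧
      ∃ a v : Fin 3 → ℝ, v ≠ 0 ∧ A = P.filter (fun x => On a v x) := by
    intro A hA
    obtain ⟨h1, h2⟩ := Finset.mem_filter.1 hA
    unfold Lines at h1
    rw [Finset.mem_filter, Finset.mem_powerset] at h1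
    exact ⟨h1.1, h1.2.1, h2, h1.2.2⟩
  -- choose lines
  have hch : ∀ A : Finset (Fin 3 → ℝ), ∃ bv : (Fin 3 → ℝ) × (Fin 3 → ℝ), A ∈ Λ →
      bv.2 ≠ 0 ∧ A = P.filter (fun x => On bv.1 bv.2 x) := by
    intro A
    by_cases hA : A ∈ Λ
    · obtain ⟨a, v, hv, hAv⟩ := (hΛmem A hA).2.2.2
      exact ⟨(a, v), fun _ => ⟨hv, hAv⟩⟩
    · exact ⟨(0, 0), fun h => absurd h hA⟩
  choose bv hbv using hch
  have hin : ∀ A ∈ Λ, ∀ x ∈ A, On (bv A).1 (bv A).2 x := by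
    intro A hA x hx
    exact (Finset.mem_filter.1 ((Finset.ext_iff.1 (hbv A hA).2 x).1 hx)).2
  have hdist : ∀ A ∈ Λ, ∀ B ∈ Λ, A ≠ B → ∀ x y, On (bv A).1 (bv A).2 x → On (bv B).1 (bv B).2 x →
      On (bv A).1 (bv A).2 y → On (bv B).1 (bv B).2 y → x = y := by
    intro A hA B hB hAB x y h1 h2 h3 h4
    by_contra hxy
    refine hAB ?_
    rw [(hbv A hA).2, (hbv B hB).2]
    refine Finset.filter_congr (fun z _ => ?_)
    rw [on_iff h1 h3 hxy, on_iff h2 h4 hxy]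
  have hI := hST (Finset (Fin 3 → ℝ)) P Λ (fun A => (bv A).1) (fun A => (bv A).2)
    (fun A hA => (hbv A hA).1) hdist
  -- lower bound for the incidences
  have hIlow : k * Λ.card ≤
      ((P ×ˢ Λ).filter (fun z => On (bv z.2).1 (bv z.2).2 z.1)).card := by
    have h1 : ((P ×ˢ Λ).filter (fun z => On (bv z.2).1 (bv z.2).2 z.1)).card
        = ∑ A ∈ Λ, A.card := by
      rw [Finset.card_filter, Finset.sum_product_right]
      refine Finset.sum_congr rfl (fun A hA => ?_)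
      rw [← Finset.card_filter]
      conv_rhs => rw [(hbv A hA).2]
    rw [h1, mul_comm]
    have h2 := Finset.card_nsmul_le_sum Λ (fun A => A.card) k
      (fun A hA => (hΛmem A hA).2.2.1)
    rw [smul_eq_mul] at h2
    exact h2
  set n : ℝ := (P.card : ℝ) with hn
  set N : ℝ := (Λ.card : ℝ) with hN
  have hn0 : 0 ≤ n := Nat.cast_nonneg _
  have hN0 : 0 ≤ N := Nat.cast_nonneg _
  have hk0 : (0 : ℝ) < k := by exact_mod_cast (by omega : 0 < k)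
  have hmain : (k : ℝ) * N ≤ C0 * (n ^ (2 / 3 : ℝ) * N ^ (2 / 3 : ℝ) + n + N) := by
    refine le_trans ?_ hI
    rw [hN]
    exact_mod_cast hIlow
  rcases eq_or_lt_of_le hN0 with hNz | hNpos
  · rw [← hNz]
    positivity
  rcases le_or_gt (k : ℝ) (3 * C0) with hkC | hkC
  · -- few pairs
    have hcard : Λ.card ≤ (P ×ˢ P).card := by
      have hpq : ∀ A : Finset (Fin 3 → ℝ), ∃ z : (Fin 3 → ℝ) × (Fin 3 → ℝ), A ∈ Λ →
          z.1 ∈ A ∧ z.2 ∈ A ∧ z.1 ≠ z.2 := by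
        intro A
        by_cases hA : A ∈ Λ
        · obtain ⟨x, hx, y, hy, hxy⟩ := Finset.one_lt_card.1
            (by have := (hΛmem A hA).2.1; omega : 1 < A.card)
          exact ⟨(x, y), fun _ => ⟨hx, hy, hxy⟩⟩
        · exact ⟨(0, 0), fun h => absurd h hA⟩
      choose z hz using hpq
      refine Finset.card_le_card_of_injOn z ?_ ?_
      · intro A hA
        have hA' : A ∈ Λ := hA
        obtain ⟨h1, h2, _⟩ := hz A hA'
        have hP := (hΛmem A hA').1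
        exact Finset.mem_coe.2 (Finset.mem_product.2 ⟨hP h1, hP h2⟩)
      · intro A hA B hB hAB
        have hA' : A ∈ Λ := hA
        have hB' : B ∈ Λ := hB
        by_contra hne
        obtain ⟨h1, h2, h3⟩ := hz A hA'
        obtain ⟨g1, g2, _⟩ := hz B hB'
        rw [← hAB] at g1 g2
        have e1 := hin A hA' _ h1
        have e2 := hin A hA' _ h2
        have e3 := hin B hB' _ g1
        have e4 := hin B hB' _ g2
        exact h3 (hdist A hA' B hB' hne _ _ e1 e3 e2 e4)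
    have hNn : N ≤ n ^ 2 := by
      rw [Finset.card_product] at hcard
      rw [hN, hn, sq]
      exact_mod_cast hcard
    have h27 : n ^ 2 ≤ 27 * C0 ^ 3 * (n ^ 2 / (k : ℝ) ^ 3) := by
      have hk3 : (k : ℝ) ^ 3 ≤ 27 * C0 ^ 3 := by
        have := pow_le_pow_left₀ hk0.le hkC 3
        calc (k : ℝ) ^ 3 ≤ (3 * C0) ^ 3 := this
          _ = 27 * C0 ^ 3 := by ring
      have e : 27 * C0 ^ 3 * (n ^ 2 / (k : ℝ) ^ 3) = (27 * C0 ^ 3) * n ^ 2 / (k : ℝ) ^ 3 := by ring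
      rw [e, le_div_iff₀ (by positivity)]
      calc n ^ 2 * (k : ℝ) ^ 3 ≤ n ^ 2 * (27 * C0 ^ 3) :=
            mul_le_mul_of_nonneg_left hk3 (by positivity)
        _ = _ := by ring
    have hp1 : 0 ≤ 27 * C0 ^ 3 * (n / k) := by positivity
    have hp2 : 0 ≤ 3 * C0 * (n ^ 2 / (k : ℝ) ^ 3 + n / k) := by positivity
    calc N ≤ n ^ 2 := hNn
      _ ≤ 27 * C0 ^ 3 * (n ^ 2 / (k : ℝ) ^ 3) := h27
      _ ≤ 27 * C0 ^ 3 * (n ^ 2 / (k : ℝ) ^ 3) + 27 * C0 ^ 3 * (n / k)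
          + 3 * C0 * (n ^ 2 / (k : ℝ) ^ 3 + n / k) := by linarith
      _ = (27 * C0 ^ 3 + 3 * C0) * (n ^ 2 / (k : ℝ) ^ 3 + n / k) := by ring
  · -- `k` large
    have h1 : (k : ℝ) * N / 3 ≤ C0 * n ∨ (k : ℝ) * N / 3 ≤ C0 * (n ^ (2 / 3 : ℝ) * N ^ (2 / 3 : ℝ)) := by
      by_contra hcon
      push Not at hcon
      obtain ⟨g1, g2⟩ := hcon
      have g3 : C0 * N < k * N / 3 := by
        have : C0 < k / 3 := by linarith
        calc C0 * N < k / 3 * N := mul_lt_mul_of_pos_right this hNpos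
          _ = _ := by ring
      have : C0 * (n ^ (2 / 3 : ℝ) * N ^ (2 / 3 : ℝ) + n + N) < k * N := by
        have e : C0 * (n ^ (2 / 3 : ℝ) * N ^ (2 / 3 : ℝ) + n + N)
          = C0 * (n ^ (2 / 3 : ℝ) * N ^ (2 / 3 : ℝ)) + C0 * n + C0 * N := by ring
        rw [e]
        linarith
      linarith
    rcases h1 with h1 | h1
    · have h2 : N ≤ 3 * C0 * (n / k) := by
        have e : 3 * C0 * (n / k) = (3 * C0 * n) / k := by ring
        rw [e, le_div_iff₀ hk0]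
        linarith
      have hp1 : 0 ≤ 27 * C0 ^ 3 * (n ^ 2 / (k : ℝ) ^ 3 + n / k) := by positivity
      have hp2 : 0 ≤ 3 * C0 * (n ^ 2 / (k : ℝ) ^ 3) := by positivity
      calc N ≤ 3 * C0 * (n / k) := h2
        _ ≤ 3 * C0 * (n / k) + 27 * C0 ^ 3 * (n ^ 2 / (k : ℝ) ^ 3 + n / k)
          + 3 * C0 * (n ^ 2 / (k : ℝ) ^ 3) := by linarith
        _ = _ := by ring
    · have h2 : ((k : ℝ) * N / 3) ^ 3 ≤ (C0 * (n ^ (2 / 3 : ℝ) * N ^ (2 / 3 : ℝ))) ^ 3 :=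
        pow_le_pow_left₀ (by positivity) h1 3
      have h3 : (C0 * (n ^ (2 / 3 : ℝ) * N ^ (2 / 3 : ℝ))) ^ 3 = C0 ^ 3 * (n ^ 2 * N ^ 2) := by
        rw [mul_pow, mul_pow, cube_rpow n hn0, cube_rpow N hN0]
      rw [h3] at h2
      have h4 : N ^ 2 * (N * (k : ℝ) ^ 3) ≤ N ^ 2 * (27 * C0 ^ 3 * n ^ 2) := by
        nlinarith [h2]
      have h5 : N * (k : ℝ) ^ 3 ≤ 27 * C0 ^ 3 * n ^ 2 :=
        le_of_mul_le_mul_left h4 (by positivity)
      have h6 : N ≤ 27 * C0 ^ 3 * (n ^ 2 / (k : ℝ) ^ 3) := by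
        have e : 27 * C0 ^ 3 * (n ^ 2 / (k : ℝ) ^ 3) = (27 * C0 ^ 3 * n ^ 2) / (k : ℝ) ^ 3 := by ring
        rw [e, le_div_iff₀ (by positivity)]
        exact h5
      have hp1 : 0 ≤ 27 * C0 ^ 3 * (n / k) := by positivity
      have hp2 : 0 ≤ 3 * C0 * (n ^ 2 / (k : ℝ) ^ 3 + n / k) := by positivity
      calc N ≤ 27 * C0 ^ 3 * (n ^ 2 / (k : ℝ) ^ 3) := h6
        _ ≤ 27 * C0 ^ 3 * (n ^ 2 / (k : ℝ) ^ 3) + 27 * C0 ^ 3 * (n / k)
          + 3 * C0 * (n ^ 2 / (k : ℝ) ^ 3 + n / k) := by linarith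
        _ = _ := by ring

end

end Pool.Agent.Helper36.Sim
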