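import Pool.Agent.Helper98.Sim.Defs

set_option autoImplicit false

open scoped Classical BigOperators
open Finset

namespace Pool.Agent.Helper36.Sim

open Pool.Agent.Helper98.Sim

noncomputable section

theorem mem_Lines {P A : Finset (Fin 3 → ℝ)} : A ∈ Lines P ↔ A ⊆ P ∧ 2 ≤ A.card ∧
    ∃ a v : Fin 3 → ℝ, v ≠ 0 ∧ A = P.filter (fun x => On a v x) := by
  unfold Lines
  rw [Finset.mem_filter, Finset.mem_powerset]

theorem mem_Planes {P B : Finset (Fin 3 → ℝ)} : B ∈ Planes P ↔ B ⊆ P ∧ ¬ Coll B ∧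
    ∃ (w : Fin 3 → ℝ) (δ : ℝ), w ≠ 0 ∧ B = P.filter (fun x => w ⬝ᵥ x = δ) := by
  unfold Planes
  rw [Finset.mem_filter, Finset.mem_powerset]

/-- the line through two points of a plane -/
theorem line_mem {P B : Finset (Fin 3 → ℝ)} (hB : B ∈ Planes P) {a b : Fin 3 → ℝ}
    (ha : a ∈ B) (hb : b ∈ B) (hab : a ≠ b) :
    P.filter (fun x => On a (b - a) x) ∈ Lines P ∧ a ∈ P.filter (fun x => On a (b - a) x) ∧
      b ∈ P.filter (fun x => On a (b - a) x) ∧ P.filter (fun x => On a (b - a) x) ⊆ B := by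
  obtain ⟨hBP, _, w, δ, _, hBw⟩ := mem_Planes.1 hB
  have haP := hBP ha
  have hbP := hBP hb
  have ha1 : a ∈ P.filter (fun x => On a (b - a) x) :=
    Finset.mem_filter.2 ⟨haP, 0, by simp⟩
  have hb1 : b ∈ P.filter (fun x => On a (b - a) x) :=
    Finset.mem_filter.2 ⟨hbP, 1, by simp⟩
  refine ⟨mem_Lines.2 ⟨Finset.filter_subset _ _, ?_, a, b - a, ?_, rfl⟩, ha1, hb1, ?_⟩
  · have hsub : ({a, b} : Finset (Fin 3 → ℝ)) ⊆ P.filter (fun x => On a (b - a) x) := by
      intro x hx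
      rw [Finset.mem_insert, Finset.mem_singleton] at hx
      rcases hx with rfl | rfl
      · exact ha1
      · exact hb1
    have := Finset.card_le_card hsub
    rw [Finset.card_pair hab] at this
    exact this
  · intro h
    exact hab (sub_eq_zero.1 h).symm
  · intro x hx
    obtain ⟨hxP, t, ht⟩ := Finset.mem_filter.1 hx
    have haw : w ⬝ᵥ a = δ := by
      rw [hBw] at ha
      exact (Finset.mem_filter.1 ha).2
    have hbw : w ⬝ᵥ b = δ := by
      rw [hBw] at hb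
      exact (Finset.mem_filter.1 hb).2
    rw [hBw, Finset.mem_filter]
    refine ⟨hxP, ?_⟩
    rw [ht, dotProduct_add, dotProduct_smul, dotProduct_sub, haw, hbw, sub_self, smul_zero,
      add_zero]

theorem two_dirs {P B : Finset (Fin 3 → ℝ)} (hB : B ∈ Planes P) {a : Fin 3 → ℝ} (ha : a ∈ B) :
    2 ≤ ((Lines P).filter (fun A => a ∈ A ∧ A ⊆ B)).card := by
  obtain ⟨hBP, hnc, w, δ, _, hBw⟩ := mem_Planes.1 hB
  have h1 : ∃ b ∈ B, a ≠ b := by
    by_contra hcon
    push Not at hcon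
    refine hnc ⟨a, Pi.single 0 1, ?_, ?_⟩
    · intro h
      have := congrFun h 0
      simp at this
    · intro x hx
      exact ⟨0, by rw [← hcon x hx]; simp⟩
  obtain ⟨b, hb, hab⟩ := h1
  obtain ⟨l1, l2, l3, l4⟩ := line_mem hB ha hb hab
  have h2 : ∃ c ∈ B, c ∉ P.filter (fun x => On a (b - a) x) := by
    by_contra hcon
    push Not at hcon
    refine hnc ⟨a, b - a, ?_, ?_⟩
    · intro h
      exact hab (sub_eq_zero.1 h).symm
    · intro x hx
      exact (Finset.mem_filter.1 (hcon x hx)).2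
  obtain ⟨c, hc, hcn⟩ := h2
  have hac : a ≠ c := by
    rintro rfl
    exact hcn l2
  obtain ⟨m1, m2, m3, m4⟩ := line_mem hB ha hc hac
  have hne : P.filter (fun x => On a (b - a) x) ≠ P.filter (fun x => On a (c - a) x) := by
    intro h
    rw [← h] at m3
    exact hcn m3
  have hsub : ({P.filter (fun x => On a (b - a) x), P.filter (fun x => On a (c - a) x)} :
      Finset (Finset (Fin 3 → ℝ))) ⊆ (Lines P).filter (fun A => a ∈ A ∧ A ⊆ B) := by
    intro A hA
    rw [Finset.mem_insert, Finset.mem_singleton] at hA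
    rcases hA with rfl | rfl
    · exact Finset.mem_filter.2 ⟨l1, l2, l4⟩
    · exact Finset.mem_filter.2 ⟨m1, m2, m4⟩
  have := Finset.card_le_card hsub
  rw [Finset.card_pair hne] at this
  exact this

theorem st_C1 (hR : RichDir_stmt) (hBk : Beck_stmt) : Nondeg_stmt := by
  obtain ⟨C, hC, hR⟩ := hR
  obtain ⟨γ, c, hγ0, hγ1, hc0, hc1, hBk⟩ := hBk
  refine ⟨γ, C / c ^ 4, hγ0, hγ1, by positivity, ?_⟩
  intro P τ hτ
  set S := (Planes P).filter (fun B => τ ≤ B.card ∧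
      ∀ A ∈ Lines P, A ⊆ B → (A.card : ℝ) ≤ γ * B.card) with hS
  set k : ℕ := max ⌈c * τ⌉₊ 2 with hk
  have hk2 : 2 ≤ k := le_max_right _ _
  have hkc : c * τ ≤ k := (Nat.le_ceil _).trans (by exact_mod_cast le_max_left _ _)
  have hcτ : 0 < c * τ := by positivity
  set r : Finset (Fin 3 → ℝ) → (Fin 3 → ℝ) → Prop := fun B a =>
    a ∈ B ∧ k ≤ ((Lines P).filter (fun A => a ∈ A ∧ A ⊆ B)).card with hr
  have hdc : ∑ B ∈ S, (P.bipartiteAbove r B).card = ∑ a ∈ P, (S.bipartiteBelow r a).card :=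
    Finset.sum_card_bipartiteAbove_eq_sum_card_bipartiteBelow r
  have hlow : ∀ B ∈ S, c * τ ≤ ((P.bipartiteAbove r B).card : ℝ) := by
    intro B hB
    obtain ⟨hBpl, hτB, hnd⟩ := Finset.mem_filter.1 hB
    have h1 := hBk P B hBpl hnd
    have h2 : c * τ ≤ c * B.card := mul_le_mul_of_nonneg_left hτB hc0.le
    refine (h2.trans h1).trans ?_
    have hsub : B.filter (fun a => c * (B.card : ℝ) ≤
        (((Lines P).filter (fun A => a ∈ A ∧ A ⊆ B)).card : ℝ)) ⊆ P.bipartiteAbove r B := by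
      intro a ha
      obtain ⟨haB, hac⟩ := Finset.mem_filter.1 ha
      rw [Finset.bipartiteAbove, Finset.mem_filter]
      refine ⟨(mem_Planes.1 hBpl).1 haB, haB, ?_⟩
      refine max_le ?_ (two_dirs hBpl haB)
      exact Nat.ceil_le.2 (h2.trans hac)
    exact_mod_cast Finset.card_le_card hsub
  have hup : ∀ a ∈ P, ((S.bipartiteBelow r a).card : ℝ) ≤
      C * ((P.card : ℝ) ^ 2 / (k : ℝ) ^ 3 + (P.card : ℝ) / k) := by
    intro a ha
    refine le_trans ?_ (hR P a k ha hk2)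
    have hsub : S.bipartiteBelow r a ⊆ (Planes P).filter (fun B => a ∈ B ∧
      k ≤ ((Lines P).filter (fun A => a ∈ A ∧ A ⊆ B)).card) := by
      intro B hB
      rw [Finset.bipartiteBelow, Finset.mem_filter] at hB
      exact Finset.mem_filter.2 ⟨(Finset.mem_filter.1 hB.1).1, hB.2⟩
    exact_mod_cast Finset.card_le_card hsub
  have hsum1 : (S.card : ℝ) * (c * τ) ≤ ∑ B ∈ S, ((P.bipartiteAbove r B).card : ℝ) := by
    have := Finset.sum_le_sum hlow
    rw [Finset.sum_const, nsmul_eq_mul] at this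
    exact this
  have hsum2 : ∑ a ∈ P, ((S.bipartiteBelow r a).card : ℝ) ≤
      P.card * (C * ((P.card : ℝ) ^ 2 / (k : ℝ) ^ 3 + (P.card : ℝ) / k)) := by
    have := Finset.sum_le_sum hup
    rw [Finset.sum_const, nsmul_eq_mul] at this
    exact this
  have hdc' : ∑ B ∈ S, ((P.bipartiteAbove r B).card : ℝ)
      = ∑ a ∈ P, ((S.bipartiteBelow r a).card : ℝ) := by exact_mod_cast hdc
  have hmain : (S.card : ℝ) * (c * τ) ≤
      P.card * (C * ((P.card : ℝ) ^ 2 / (c * τ) ^ 3 + (P.card : ℝ) / (c * τ))) := by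
    refine (hsum1.trans (hdc'.le.trans hsum2)).trans ?_
    have hn : (0 : ℝ) ≤ P.card := Nat.cast_nonneg _
    have e1 : (P.card : ℝ) ^ 2 / (k : ℝ) ^ 3 ≤ (P.card : ℝ) ^ 2 / (c * τ) ^ 3 :=
      div_le_div_of_nonneg_left (by positivity) (by positivity) (pow_le_pow_left₀ hcτ.le hkc 3)
    have e2 : (P.card : ℝ) / k ≤ (P.card : ℝ) / (c * τ) :=
      div_le_div_of_nonneg_left hn hcτ hkc
    exact mul_le_mul_of_nonneg_left (mul_le_mul_of_nonneg_left (add_le_add e1 e2) hC.le) hn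
  have hfin : (S.card : ℝ) ≤ (P.card * (C * ((P.card : ℝ) ^ 2 / (c * τ) ^ 3
      + (P.card : ℝ) / (c * τ)))) / (c * τ) := (le_div_iff₀ hcτ).2 hmain
  refine hfin.trans ?_
  have hτ0 : 0 < τ := lt_of_lt_of_le one_pos hτ
  have e3 : (P.card * (C * ((P.card : ℝ) ^ 2 / (c * τ) ^ 3
      + (P.card : ℝ) / (c * τ)))) / (c * τ)
      = C / c ^ 4 * ((P.card : ℝ) ^ 3 / τ ^ 4 + c ^ 2 * ((P.card : ℝ) ^ 2 / τ ^ 2)) := by
    field_simp
  rw [e3]
  refine mul_le_mul_of_nonneg_left (add_le_add le_rfl ?_) (by positivity)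
  have hc2 : c ^ 2 ≤ 1 := pow_le_one₀ hc0.le hc1.le
  have hnn : 0 ≤ (P.card : ℝ) ^ 2 / τ ^ 2 := by positivity
  calc c ^ 2 * ((P.card : ℝ) ^ 2 / τ ^ 2) ≤ 1 * ((P.card : ℝ) ^ 2 / τ ^ 2) :=
        mul_le_mul_of_nonneg_right hc2 hnn
    _ = _ := one_mul _

end

end Pool.Agent.Helper36.Sim
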